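import Pool.Agent.Y690.PP.Stm

/-!
# Project PP, abstract part (b): few large sets
-/

set_option autoImplicit false

open Finset

namespace Pool.Agent.Y804.PP

open Pool.Agent.Y690.PP

variable {P : Type} {N : P → ℕ} {s : P → P → ℝ} {t : P → ℝ}

theorem one_le_NN (h : Basic N s t) (A : Finset P) : 1 ≤ NN N A := by
  unfold NN
  exact Finset.one_le_prod' (fun p _ => by have := h.two_le p; omega)

theorem N_le_NN (h : Basic N s t) {A : Finset P} {p : P} (hp : p ∈ A) : N p ≤ NN N A := by
  unfold NN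
  exact Finset.single_le_prod' (f := N) (fun p _ => by have := h.two_le p; omega) hp

theorem mem_PB (h : Basic N s t) {x : ℝ} {p : P} : p ∈ PB N x ↔ (N p : ℝ) ≤ x := by
  unfold PB
  rw [dif_pos (h.fin x)]
  simp

theorem fin_FF (h : Basic N s t) (x : ℝ) : {A : Finset P | (NN N A : ℝ) ≤ x}.Finite := by
  refine ((PB N x).powerset.finite_toSet).subset ?_
  intro A hA
  rw [Set.mem_ofPred_eq] at hA
  rw [Finset.mem_coe, Finset.mem_powerset]
  intro p hp
  rw [mem_PB h]
  have : (N p : ℝ) ≤ NN N A := by exact_mod_cast N_le_NN h hp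
  exact this.trans hA

theorem mem_FF (h : Basic N s t) {x : ℝ} {A : Finset P} : A ∈ FF N x ↔ (NN N A : ℝ) ≤ x := by
  unfold FF
  rw [dif_pos (fin_FF h x)]
  simp

theorem FF_subset (h : Basic N s t) {x : ℝ} {A : Finset P} (hA : A ∈ FF N x) : A ⊆ PB N x := by
  intro p hp
  rw [mem_PB h]
  rw [mem_FF h] at hA
  have : (N p : ℝ) ≤ NN N A := by exact_mod_cast N_le_NN h hp
  exact this.trans hA

theorem half_le_log {y : ℝ} (hy : 2 ≤ y) : 1 / 2 < Real.log y := by
  have h1 := Real.log_two_gt_d9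
  have h2 := Real.log_le_log (by norm_num : (0:ℝ) < 2) hy
  linarith

/-- The sum over the primes near the line `1`. -/
theorem sum_near (h : Basic N s t) (h2 : A2 N) : ∃ C : ℝ, 0 ≤ C ∧ ∀ y : ℝ, 2 ≤ y →
    ∀ F : Finset P, ∑ p ∈ F, (N p : ℝ) ^ (-(1 + 1 / Real.log y)) ≤
      Real.log (2 * Real.log y) + C := by
  obtain ⟨C, hC⟩ := h2
  refine ⟨|C|, abs_nonneg C, fun y hy F => ?_⟩
  have hl := half_le_log hy
  obtain ⟨l, hl'⟩ : ∃ l, Real.log y = l := ⟨_, rfl⟩
  rw [hl'] at hl ⊢
  have hN : ∀ p, (1:ℝ) ≤ N p := fun p => by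
    have := h.two_le p
    exact_mod_cast (by omega : 1 ≤ N p)
  rcases le_or_gt 1 l with h1 | h1
  · have h3 := hC F (1 + 1 / l) (by
      have : 0 < 1 / l := by positivity
      linarith) (by
      have : 1 / l ≤ 1 := by rw [div_le_one (by linarith)]; exact h1
      linarith)
    refine h3.trans ?_
    have e : 1 / (1 + 1 / l - 1) = l := by field_simp; ring
    rw [e]
    have h4 : Real.log l ≤ Real.log (2 * l) := Real.log_le_log (by linarith) (by linarith)
    linarith [le_abs_self C]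
  · have h3 := hC F 2 (by norm_num) le_rfl
    have h4 : ∑ p ∈ F, (N p : ℝ) ^ (-(1 + 1 / l)) ≤ ∑ p ∈ F, (N p : ℝ) ^ (-2 : ℝ) := by
      refine Finset.sum_le_sum (fun p _ => ?_)
      apply Real.rpow_le_rpow_of_exponent_le (hN p)
      have : 1 < 1 / l := by rw [lt_div_iff₀ (by linarith)]; linarith
      linarith
    have h5 : 0 ≤ Real.log (2 * l) := Real.log_nonneg (by linarith)
    have e : Real.log (1 / (2 - 1)) = 0 := by norm_num
    rw [e] at h3
    linarith [le_abs_self C]

/-- The sum of `1 / N p` over the primes of norm at most `y`. -/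
theorem sum_inv (h : Basic N s t) (h2 : A2 N) : ∃ C : ℝ, 0 ≤ C ∧ ∀ y : ℝ, 2 ≤ y →
    ∑ p ∈ PB N y, (1 : ℝ) / N p ≤ 3 * Real.log (2 * Real.log y) + C := by
  obtain ⟨C, hC0, hC⟩ := sum_near h h2
  refine ⟨3 * C, by positivity, fun y hy => ?_⟩
  have h1 := hC y hy (PB N y)
  have hl := half_le_log hy
  have h3 : ∑ p ∈ PB N y, (1 : ℝ) / N p ≤
      ∑ p ∈ PB N y, 3 * (N p : ℝ) ^ (-(1 + 1 / Real.log y)) := by
    refine Finset.sum_le_sum (fun p hp => ?_)
    rw [mem_PB h] at hp
    have hN : (2:ℝ) ≤ N p := by exact_mod_cast h.two_le p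
    have hN0 : (0:ℝ) < N p := by linarith
    have e1 : (N p : ℝ) ^ (-(1 + 1 / Real.log y)) = (1 / N p) * (N p : ℝ) ^ (-(1 / Real.log y)) := by
      rw [neg_add, Real.rpow_add hN0, Real.rpow_neg_one, one_div (N p : ℝ)]
    rw [e1]
    have e2 : (1:ℝ) / 3 ≤ (N p : ℝ) ^ (-(1 / Real.log y)) := by
      rw [Real.rpow_def_of_pos hN0]
      have h5 : Real.log (N p) ≤ Real.log y := Real.log_le_log hN0 hp
      have h6 : -1 ≤ Real.log (N p) * -(1 / Real.log y) := by
        have : Real.log (N p) * (1 / Real.log y) ≤ 1 := by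
          rw [mul_one_div, div_le_one (by linarith)]; exact h5
        linarith
      have h7 : Real.exp (-1) ≤ Real.exp (Real.log (N p) * -(1 / Real.log y)) :=
        Real.exp_le_exp.mpr h6
      refine le_trans ?_ h7
      rw [Real.exp_neg, one_div]
      apply inv_anti₀ (Real.exp_pos 1)
      exact Real.exp_one_lt_three.le
    have h8 : (0:ℝ) < 1 / N p := by positivity
    nlinarith
  rw [← Finset.mul_sum] at h3
  linarith

/-- Sums over sets of `K ^ #A / NN A`. -/
theorem sum_FF_inv (h : Basic N s t) (h2 : A2 N) (K : ℝ) (hK : 0 ≤ K) :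
    ∃ (C : ℝ) (D : ℕ), 1 ≤ C ∧ ∀ y : ℝ, 2 ≤ y →
      ∑ A ∈ FF N y, K ^ #A / NN N A ≤ C * Real.log y ^ D := by
  classical
  obtain ⟨C, hC0, hC⟩ := sum_inv h h2
  obtain ⟨D, hD⟩ : ∃ D : ℕ, 3 * K ≤ D := exists_nat_ge _
  refine ⟨2 ^ D * Real.exp (K * C), D, ?_, fun y hy => ?_⟩
  · have h1 : (1:ℝ) ≤ 2 ^ D := one_le_pow₀ (by norm_num)
    have h3 : (1:ℝ) ≤ Real.exp (K * C) := Real.one_le_exp (by positivity)
    nlinarith
  have hl := half_le_log hy
  have hN0 : ∀ p, (0:ℝ) < N p := fun p => by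
    have := h.two_le p
    exact_mod_cast (by omega : 0 < N p)
  have h1 : ∑ A ∈ FF N y, K ^ #A / NN N A ≤ ∑ A ∈ (PB N y).powerset, ∏ p ∈ A, (K / N p) := by
    have e : ∀ A : Finset P, K ^ #A / NN N A = ∏ p ∈ A, (K / N p) := by
      intro A
      rw [Finset.prod_div_distrib, Finset.prod_const]
      unfold NN
      push_cast
      rfl
    simp only [e]
    apply Finset.sum_le_sum_of_subset_of_nonneg
    · intro A hA
      rw [Finset.mem_powerset]
      exact FF_subset h hA
    · intro A _ _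
      exact Finset.prod_nonneg (fun p _ => div_nonneg hK (hN0 p).le)
  refine h1.trans ?_
  rw [← Finset.prod_one_add]
  have h3 : ∏ p ∈ PB N y, (1 + K / N p) ≤ Real.exp (∑ p ∈ PB N y, K / N p) := by
    rw [Real.exp_sum]
    refine Finset.prod_le_prod (fun p _ => ?_) (fun p _ => ?_)
    · have := div_nonneg hK (hN0 p).le
      linarith
    · rw [add_comm]; exact Real.add_one_le_exp _
  refine h3.trans ?_
  have h4 : ∑ p ∈ PB N y, K / N p ≤ D * Real.log (2 * Real.log y) + K * C := by
    have e : ∑ p ∈ PB N y, K / N p = K * ∑ p ∈ PB N y, (1:ℝ) / N p := by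
      rw [Finset.mul_sum]
      exact Finset.sum_congr rfl (fun p _ => by ring)
    rw [e]
    have h5 := mul_le_mul_of_nonneg_left (hC y hy) hK
    have h6 : 0 ≤ Real.log (2 * Real.log y) := Real.log_nonneg (by linarith)
    nlinarith
  refine (Real.exp_le_exp.mpr h4).trans ?_
  rw [Real.exp_add, mul_comm (D : ℝ), Real.exp_mul, Real.exp_log (by linarith), Real.rpow_natCast,
    mul_pow]
  exact le_of_eq (by ring)

variable {I : Type} [Fintype I] [DecidableEq I]

theorem mem_TT (h : Basic N s t) {x : ℝ} {A : I → Finset P} : A ∈ TT I N x ↔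
    (∀ u v, u ≠ v → Disjoint (A u) (A v)) ∧ ((∏ u, NN N (A u) : ℕ) : ℝ) ≤ x := by
  classical
  unfold TT
  rw [Finset.mem_filter, Fintype.mem_piFinset]
  constructor
  · rintro ⟨-, h1⟩
    exact h1
  · intro h1
    refine ⟨fun u => ?_, h1⟩
    rw [mem_FF h]
    have : NN N (A u) ≤ ∏ u, NN N (A u) :=
      Finset.single_le_prod' (f := fun u => NN N (A u)) (fun u _ => one_le_NN h (A u)) (mem_univ u)
    have h2 : (NN N (A u) : ℝ) ≤ ((∏ u, NN N (A u) : ℕ) : ℝ) := by exact_mod_cast this
    exact h2.trans h1.2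

open Classical in
/-- the union of the large sets -/
noncomputable def uni (Λ : Finset I) (A : I → Finset P) : Finset P := Λ.biUnion A

open Classical in
/-- the small sets -/
noncomputable def sml (Λ : Finset I) (A : I → Finset P) : I → Finset P :=
  fun u => if u ∈ Λ then ∅ else A u

theorem NN_split (Λ : Finset I) {A : I → Finset P} (hA : ∀ u v, u ≠ v → Disjoint (A u) (A v)) :
    ∏ u, NN N (A u) = (∏ u, NN N (sml Λ A u)) * NN N (uni Λ A) := by
  classical
  have h1 : NN N (uni Λ A) = ∏ u ∈ Λ, NN N (A u) := by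
    unfold NN uni
    rw [Finset.prod_biUnion]
    intro u _ v _ huv
    exact hA u v huv
  rw [h1, ← Finset.prod_mul_prod_compl Λ (fun u => NN N (A u))]
  rw [← Finset.prod_mul_prod_compl Λ (fun u => NN N (sml Λ A u))]
  have h2 : ∏ u ∈ Λ, NN N (sml Λ A u) = 1 := by
    apply Finset.prod_eq_one
    intro u hu
    unfold sml
    rw [if_pos hu]; simp [NN]
  have h3 : ∏ u ∈ Λᶜ, NN N (sml Λ A u) = ∏ u ∈ Λᶜ, NN N (A u) := by
    refine Finset.prod_congr rfl (fun u hu => ?_)
    unfold sml
    rw [if_neg (Finset.mem_compl.mp hu)]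
  rw [h2, h3]; ring

theorem card_split (Λ : Finset I) {A : I → Finset P} (hA : ∀ u v, u ≠ v → Disjoint (A u) (A v)) :
    ∑ u, #(A u) = (∑ u, #(sml Λ A u)) + #(uni Λ A) := by
  classical
  have h1 : #(uni Λ A) = ∑ u ∈ Λ, #(A u) := by
    unfold uni
    rw [Finset.card_biUnion]
    intro u _ v _ huv
    exact hA u v huv
  rw [h1, ← Finset.sum_add_sum_compl Λ (fun u => #(A u))]
  rw [← Finset.sum_add_sum_compl Λ (fun u => #(sml Λ A u))]
  have h2 : ∑ u ∈ Λ, #(sml Λ A u) = 0 := by
    apply Finset.sum_eq_zero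
    intro u hu
    unfold sml
    rw [if_pos hu]; simp
  have h3 : ∑ u ∈ Λᶜ, #(sml Λ A u) = ∑ u ∈ Λᶜ, #(A u) := by
    refine Finset.sum_congr rfl (fun u hu => ?_)
    unfold sml
    rw [if_neg (Finset.mem_compl.mp hu)]
  rw [h2, h3]; ring

/-- The number of families with given small sets and given union of the large sets. -/
theorem card_fiber (Λ : Finset I) (S : Finset (I → Finset P))
    (hS : ∀ A ∈ S, ∀ u v, u ≠ v → Disjoint (A u) (A v)) (B : I → Finset P) (m : Finset P)
    (hB : ∀ A ∈ S, sml Λ A = B ∧ uni Λ A = m) : #S ≤ #Λ ^ #m := by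
  classical
  have hsub : S ⊆ (Fintype.piFinset (fun _ : {p // p ∈ m} => Λ)).image
      (fun f => fun u => if u ∈ Λ then (m.attach.filter (fun p => f p = u)).image Subtype.val
        else B u) := by
    intro A hA
    obtain ⟨h1, h2⟩ := hB A hA
    have h3 : ∀ p : {p // p ∈ m}, ∃ u ∈ Λ, p.1 ∈ A u := by
      rintro ⟨p, hp⟩
      rw [← h2] at hp
      unfold uni at hp
      rw [Finset.mem_biUnion] at hp
      exact hp
    choose f hf1 hf2 using h3
    rw [Finset.mem_image]
    refine ⟨f, by rw [Fintype.mem_piFinset]; exact hf1, ?_⟩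
    funext u
    split_ifs with hu
    · ext p
      simp only [Finset.mem_image, Finset.mem_filter, Finset.mem_attach, true_and, Subtype.exists,
        exists_and_right, exists_eq_right]
      constructor
      · rintro ⟨hp, hpu⟩
        have := hf2 ⟨p, hp⟩
        rw [hpu] at this
        exact this
      · intro hp
        have hpm : p ∈ m := by
          rw [← h2]; unfold uni
          exact Finset.mem_biUnion.mpr ⟨u, hu, hp⟩
        refine ⟨hpm, ?_⟩
        by_contra hne
        have := hS A hA _ _ hne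
        exact (Finset.disjoint_left.mp this) (hf2 ⟨p, hpm⟩) hp
    · rw [← h1]
      unfold sml
      rw [if_neg hu]
  refine (Finset.card_le_card hsub).trans (Finset.card_image_le.trans ?_)
  rw [Fintype.card_piFinset, Finset.prod_const, Finset.card_univ, Fintype.card_coe]

theorem t_ABSb {P : Type} (N : P → ℕ) (s : P → P → ℝ) (t : P → ℝ) (I : Type) [Fintype I]
    [DecidableEq I] (w : ℝ) (h : Basic N s t) (h2 : A2 N) (hHR : HR N) (hw0 : 0 ≤ w)
    (hw1 : w ≤ 1) : SABSb N I w := by
  classical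
  intro Λ hΛ
  obtain ⟨c, hc⟩ : ∃ c : ℝ, (#Λ : ℝ) * w = c := ⟨_, rfl⟩
  rw [hc] at hΛ
  have hc0 : 0 ≤ c := by rw [← hc]; positivity
  obtain ⟨C2, hC20, hC2⟩ := sum_near h h2
  obtain ⟨CH, hCH0, hCH⟩ := hHR
  obtain ⟨C3, D3, hC31, hC3⟩ := sum_FF_inv h h2 1 (by norm_num)
  refine ⟨4 * CH * Real.exp (c * C2) * C3 ^ Fintype.card I, 1 - c, D3 * Fintype.card I,
    by linarith, ?_⟩
  intro x Z hx hZ hZx
  have hlx := half_le_log (by linarith : (2:ℝ) ≤ x)
  -- the sum over the union of the large sets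
  have hinner : ∀ Y : ℝ, 2 ≤ Y → Real.sqrt x ≤ Y → ∑ m ∈ FF N Y, c ^ #m ≤
      4 * CH * Real.exp (c * C2) * Y * Real.log x ^ (-(1 - c)) := by
    intro Y hY hxY
    have hlY := half_le_log hY
    have h1 := hCH (fun _ => c) (fun _ => hc0) (fun _ => hΛ.le) Y hY
    have e1 : ∑ m ∈ FF N Y, c ^ #m = ∑ A ∈ FF N Y, ∏ p ∈ A, c :=
      Finset.sum_congr rfl (fun A _ => by rw [Finset.prod_const])
    rw [e1]
    refine h1.trans ?_
    rw [← Finset.mul_sum]
    have h3 := mul_le_mul_of_nonneg_left (hC2 Y hY (PB N Y)) hc0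
    have h4 := Real.exp_le_exp.mpr h3
    have e2 : Real.exp (c * (Real.log (2 * Real.log Y) + C2)) =
        Real.exp (c * C2) * (2 * Real.log Y) ^ c := by
      rw [mul_add, Real.exp_add, Real.rpow_def_of_pos (by linarith), mul_comm c (Real.log _)]
      ring
    rw [e2] at h4
    have h5 : (2 * Real.log Y) ^ c ≤ 2 * Real.log Y ^ c := by
      rw [Real.mul_rpow (by norm_num) (by linarith)]
      apply mul_le_mul_of_nonneg_right _ (by positivity)
      calc (2:ℝ) ^ c ≤ 2 ^ (1:ℝ) := Real.rpow_le_rpow_of_exponent_le (by norm_num) hΛ.le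
        _ = 2 := by rw [Real.rpow_one]
    have h6 : Real.log Y ^ c = Real.log Y * Real.log Y ^ (-(1 - c)) := by
      nth_rewrite 2 [← Real.rpow_one (Real.log Y)]
      rw [← Real.rpow_add (by linarith)]
      congr 1
      ring
    have h7 : Real.log Y ^ (-(1 - c)) ≤ 2 * Real.log x ^ (-(1 - c)) := by
      have h8 : Real.log x / 2 ≤ Real.log Y := by
        rw [← Real.log_sqrt (by linarith)]
        exact Real.log_le_log (Real.sqrt_pos.mpr (by linarith)) hxY
      have h9 := Real.rpow_le_rpow_of_nonpos (by linarith : 0 < Real.log x / 2) h8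
        (by linarith : -(1 - c) ≤ 0)
      refine h9.trans ?_
      rw [Real.div_rpow (by linarith) (by norm_num), div_eq_mul_inv, ← Real.rpow_neg (by norm_num),
        neg_neg, mul_comm]
      apply mul_le_mul_of_nonneg_right _ (by positivity)
      calc (2:ℝ) ^ (1 - c) ≤ 2 ^ (1:ℝ) :=
            Real.rpow_le_rpow_of_exponent_le (by norm_num) (by linarith)
        _ = 2 := by rw [Real.rpow_one]
    have hE := Real.exp_pos (c * C2)
    have hLY : 0 < Real.log Y := by linarith
    calc CH * (Y / Real.log Y) * Real.exp (c * ∑ p ∈ PB N Y, (N p : ℝ) ^ (-(1 + 1 / Real.log Y)))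
        ≤ CH * (Y / Real.log Y) * (Real.exp (c * C2) * (2 * Real.log Y) ^ c) :=
          mul_le_mul_of_nonneg_left h4 (by positivity)
      _ ≤ CH * (Y / Real.log Y) * (Real.exp (c * C2) * (2 * Real.log Y ^ c)) :=
          mul_le_mul_of_nonneg_left (mul_le_mul_of_nonneg_left h5 hE.le) (by positivity)
      _ = 2 * CH * Real.exp (c * C2) * Y * Real.log Y ^ (-(1 - c)) := by
          rw [h6]; field_simp
      _ ≤ 2 * CH * Real.exp (c * C2) * Y * (2 * Real.log x ^ (-(1 - c))) :=
          mul_le_mul_of_nonneg_left h7 (by positivity)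
      _ = _ := by ring
  -- the decomposition
  obtain ⟨S, hS⟩ : ∃ S, (TT I N x).filter (fun A => ∀ u, u ∉ Λ → (NN N (A u) : ℝ) ≤ Z) = S :=
    ⟨_, rfl⟩
  rw [hS]
  have hmem : ∀ A ∈ S, (∀ u v, u ≠ v → Disjoint (A u) (A v)) ∧
      ((∏ u, NN N (A u) : ℕ) : ℝ) ≤ x ∧ ∀ u, u ∉ Λ → (NN N (A u) : ℝ) ≤ Z := by
    intro A hA
    rw [← hS, Finset.mem_filter, mem_TT h] at hA
    exact ⟨hA.1.1, hA.1.2, hA.2⟩
  set R : Finset (I → Finset P) := Fintype.piFinset (fun u : I => if u ∈ Λ then {∅} else FF N Z)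
    with hR
  have hmaps : ∀ A ∈ S, (sml Λ A, uni Λ A) ∈ R ×ˢ FF N x := by
    intro A hA
    obtain ⟨h1, h3, h4⟩ := hmem A hA
    rw [Finset.mem_product]
    constructor
    · simp only [hR]
      rw [Fintype.mem_piFinset]
      intro u
      by_cases hu : u ∈ Λ
      · rw [if_pos hu]; unfold sml; rw [if_pos hu]; simp
      · rw [if_neg hu]; unfold sml; rw [if_neg hu, mem_FF h]; exact h4 u hu
    · simp only
      rw [mem_FF h]
      rw [NN_split Λ h1] at h3
      refine le_trans ?_ h3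
      have : NN N (uni Λ A) ≤ (∏ u, NN N (sml Λ A u)) * NN N (uni Λ A) :=
        Nat.le_mul_of_pos_left _ (Finset.prod_pos (fun u _ => one_le_NN h _))
      exact_mod_cast this
  rw [← Finset.sum_fiberwise_of_maps_to hmaps, Finset.sum_product]
  have hper : ∀ B ∈ R, ∑ m ∈ FF N x, ∑ A ∈ S.filter (fun A => (sml Λ A, uni Λ A) = (B, m)),
      w ^ (∑ u, #(A u)) ≤
      4 * CH * Real.exp (c * C2) * x * Real.log x ^ (-(1 - c)) * ∏ u, (1 / (NN N (B u) : ℝ)) := by
    intro B hB
    obtain ⟨q, hq⟩ : ∃ q : ℕ, ∏ u, NN N (B u) = q := ⟨_, rfl⟩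
    have hq1 : 1 ≤ q := by rw [← hq]; exact Finset.one_le_prod' (fun u _ => one_le_NN h _)
    have hq1r : (1:ℝ) ≤ q := by exact_mod_cast hq1
    have hqZ : (q : ℝ) ≤ Z ^ Fintype.card I := by
      rw [← hq]
      push_cast
      have h1 : ∏ u, (NN N (B u) : ℝ) ≤ ∏ _u : I, Z := by
        refine Finset.prod_le_prod (fun u _ => by positivity) (fun u _ => ?_)
        rw [hR, Fintype.mem_piFinset] at hB
        have h3 := hB u
        split_ifs at h3 with hu
        · rw [Finset.mem_singleton] at h3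
          rw [h3]; simp [NN]; linarith
        · rwa [mem_FF h] at h3
      rwa [Finset.prod_const, Finset.card_univ] at h1
    have hZpos : (0:ℝ) < Z ^ Fintype.card I := by positivity
    have hZs : Z ^ Fintype.card I ≤ Real.sqrt x := by
      apply Real.le_sqrt_of_sq_le
      rw [← pow_mul, mul_comm]; exact hZx
    have hsx : (2:ℝ) ≤ Real.sqrt x := by
      apply Real.le_sqrt_of_sq_le; linarith
    have hYs : Real.sqrt x ≤ x / q := by
      rw [le_div_iff₀ (by linarith)]
      calc Real.sqrt x * q ≤ Real.sqrt x * Real.sqrt x :=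
            mul_le_mul_of_nonneg_left (hqZ.trans hZs) (by positivity)
        _ = x := Real.mul_self_sqrt (by linarith)
    have h1 : ∑ m ∈ FF N x, ∑ A ∈ S.filter (fun A => (sml Λ A, uni Λ A) = (B, m)),
        w ^ (∑ u, #(A u)) ≤ ∑ m ∈ FF N x, if (q : ℝ) * NN N m ≤ x then c ^ #m else 0 := by
      refine Finset.sum_le_sum (fun m _ => ?_)
      have hfib : ∀ A ∈ S.filter (fun A => (sml Λ A, uni Λ A) = (B, m)),
          (sml Λ A = B ∧ uni Λ A = m) := by
        intro A hA
        rw [Finset.mem_filter, Prod.mk.injEq] at hA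
        exact hA.2
      split_ifs with hqm
      · have h3 : ∀ A ∈ S.filter (fun A => (sml Λ A, uni Λ A) = (B, m)),
            w ^ (∑ u, #(A u)) ≤ w ^ #m := by
          intro A hA
          have hA' := hfib A hA
          rw [Finset.mem_filter] at hA
          rw [card_split Λ (hmem A hA.1).1, hA'.2, pow_add]
          have h5 : w ^ (∑ u, #(sml Λ A u)) ≤ 1 := pow_le_one₀ hw0 hw1
          have h6 : 0 ≤ w ^ #m := pow_nonneg hw0 _
          nlinarith
        refine (Finset.sum_le_sum h3).trans ?_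
        rw [Finset.sum_const, nsmul_eq_mul, ← hc, mul_pow]
        apply mul_le_mul_of_nonneg_right _ (pow_nonneg hw0 _)
        have h4 := card_fiber Λ (S.filter (fun A => (sml Λ A, uni Λ A) = (B, m)))
          (fun A hA => (hmem A (Finset.mem_filter.mp hA).1).1) B m hfib
        exact_mod_cast h4
      · rw [Finset.filter_eq_empty_iff.mpr]
        · simp
        · intro A hA hAe
          rw [Prod.mk.injEq] at hAe
          obtain ⟨h3, h4, -⟩ := hmem A hA
          rw [NN_split Λ h3, hAe.1, hAe.2, hq] at h4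
          push_cast at h4
          exact hqm h4
    refine h1.trans ?_
    rw [← Finset.sum_filter]
    have h3 : (FF N x).filter (fun m => (q : ℝ) * NN N m ≤ x) = FF N (x / q) := by
      ext m
      rw [Finset.mem_filter, mem_FF h, mem_FF h, le_div_iff₀ (by linarith)]
      constructor
      · rintro ⟨-, h3⟩
        linarith
      · intro h3
        have h4 : (0:ℝ) ≤ NN N m := by positivity
        exact ⟨by nlinarith, by linarith⟩
    rw [h3]
    refine (hinner (x / q) (hsx.trans hYs) hYs).trans (le_of_eq ?_)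
    have h4 : ∏ u, (1 / (NN N (B u) : ℝ)) = 1 / q := by
      rw [← hq]; push_cast
      rw [Finset.prod_div_distrib, Finset.prod_const_one]
    rw [h4]; ring
  refine (Finset.sum_le_sum hper).trans ?_
  rw [← Finset.mul_sum]
  have hprod : ∑ B ∈ R, ∏ u, (1 / (NN N (B u) : ℝ)) ≤ (C3 * Real.log Z ^ D3) ^ Fintype.card I := by
    rw [hR]
    rw [← Finset.prod_univ_sum (fun u : I => if u ∈ Λ then {∅} else FF N Z)
      (fun _ A => 1 / (NN N A : ℝ))]
    have h1 : ∏ u : I, ∑ A ∈ (if u ∈ Λ then {∅} else FF N Z), 1 / (NN N A : ℝ) ≤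
        ∏ _u : I, (C3 * Real.log Z ^ D3) := by
      refine Finset.prod_le_prod (fun u _ => Finset.sum_nonneg (fun A _ => by positivity))
        (fun u _ => ?_)
      have h3 := hC3 Z hZ
      simp only [one_pow] at h3
      split_ifs with hu
      · refine le_trans ?_ h3
        apply Finset.sum_le_sum_of_subset_of_nonneg
        · intro A hA
          rw [Finset.mem_singleton] at hA
          rw [hA, mem_FF h]
          simp [NN]; linarith
        · intro A _ _; positivity
      · exact h3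
    rwa [Finset.prod_const, Finset.card_univ] at h1
  have hpos : 0 ≤ 4 * CH * Real.exp (c * C2) * x * Real.log x ^ (-(1 - c)) := by
    have : 0 < Real.log x := by linarith
    positivity
  refine (mul_le_mul_of_nonneg_left hprod hpos).trans (le_of_eq ?_)
  rw [mul_pow, ← pow_mul]; ring

end Pool.Agent.Y804.PP
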